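import Pool.Agent.MP_e3ece1_pr.Bilinear

namespace Pool.Agent.MP_e3ece1_pr

open Finset ArithmeticFunction

/-- truncation to small arguments -/
noncomputable def lo (f : ArithmeticFunction ℝ) (U : ℕ) : ArithmeticFunction ℝ :=
  ⟨fun n => if n ≤ U then f n else 0, by simp⟩

/-- truncation to large arguments -/
noncomputable def hi (f : ArithmeticFunction ℝ) (U : ℕ) : ArithmeticFunction ℝ :=
  ⟨fun n => if U < n then f n else 0, by simp⟩

lemma lo_apply (f : ArithmeticFunction ℝ) (U n : ℕ) : lo f U n = if n ≤ U then f n else 0 := rfl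

lemma hi_apply (f : ArithmeticFunction ℝ) (U n : ℕ) : hi f U n = if U < n then f n else 0 := rfl

lemma lo_add_hi (f : ArithmeticFunction ℝ) (U : ℕ) : lo f U + hi f U = f := by
  ext n
  rw [ArithmeticFunction.add_apply, lo_apply, hi_apply]
  split_ifs <;> first | omega | simp

/-- real Moebius function -/
noncomputable def mob : ArithmeticFunction ℝ := (moebius : ArithmeticFunction ℤ)

/-- real zeta function -/
noncomputable def zet : ArithmeticFunction ℝ := (zeta : ArithmeticFunction ℕ)

lemma abs_mob_le (n : ℕ) : |mob n| ≤ 1 := by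
  unfold mob
  rw [intCoe_apply]
  exact_mod_cast abs_moebius_le_one

lemma vaughan (U R : ℕ) :
    vonMangoldt + lo mob U * lo vonMangoldt U * zet = lo vonMangoldt U + lo mob U * log +
      (lo (hi mob U) R * (hi vonMangoldt U * zet) + (hi vonMangoldt U * zet) * hi (hi mob U) R) := by
  have h1 := lo_add_hi mob U
  have h2 := lo_add_hi vonMangoldt U
  have h3 := lo_add_hi (hi mob U) R
  have h4 : mob * zet = 1 := coe_moebius_mul_coe_zeta
  have h5 : vonMangoldt * zet = log := vonMangoldt_mul_zeta
  linear_combination (-1 : ArithmeticFunction ℝ) * h2 + lo mob U * h5 - lo mob U * zet * h2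
    - (hi vonMangoldt U * zet) * h3 - hi vonMangoldt U * zet * h1 - hi vonMangoldt U * h4
    + 2 * (lo mob U * zet * h2)

lemma log_mono : Monotone fun n : ℕ => Real.log n := by
  intro a b hab
  rcases Nat.eq_zero_or_pos a with rfl | ha
  · simpa using Real.log_natCast_nonneg b
  · exact Real.log_le_log (by exact_mod_cast ha) (by exact_mod_cast hab)

lemma beta_bound (U k : ℕ) : |(hi vonMangoldt U * zet) k| ≤ Real.log k := by
  unfold zet
  rw [coe_mul_zeta_apply, ← vonMangoldt_sum]
  refine (abs_sum_le_sum_abs _ _).trans (sum_le_sum fun i _ => ?_)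
  rw [hi_apply]
  split_ifs
  · rw [abs_of_nonneg vonMangoldt_nonneg]
  · simp

lemma beta_zero {U k : ℕ} (h : k ≤ U) : (hi vonMangoldt U * zet) k = 0 := by
  unfold zet
  rw [coe_mul_zeta_apply]
  refine sum_eq_zero fun i hi' => ?_
  have := Nat.divisor_le hi'
  rw [hi_apply, if_neg (by omega)]

lemma gamma_bound (U d : ℕ) : |(lo mob U * lo vonMangoldt U) d| ≤ Real.log d := by
  rw [ArithmeticFunction.mul_apply, ← vonMangoldt_sum,
    ← Nat.sum_divisorsAntidiagonal' (fun _ y => vonMangoldt y)]
  refine (abs_sum_le_sum_abs _ _).trans (sum_le_sum fun x _ => ?_)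
  rw [abs_mul, lo_apply, lo_apply]
  have h1 := abs_mob_le x.1
  have h2 : 0 ≤ vonMangoldt x.2 := vonMangoldt_nonneg
  split_ifs
  · rw [abs_of_nonneg h2]
    nlinarith
  all_goals simp

lemma gamma_zero {U d : ℕ} (h : U * U < d) : (lo mob U * lo vonMangoldt U) d = 0 := by
  rw [ArithmeticFunction.mul_apply]
  refine sum_eq_zero fun x hx => ?_
  rw [lo_apply, lo_apply]
  split_ifs with h1 h2
  · have := (Nat.mem_divisorsAntidiagonal.mp hx).1
    have := Nat.mul_le_mul h1 h2
    omega
  all_goals simp

theorem vinogradov {z : ℂ} {M : ℝ} {Q : ℕ} (h : Good z M Q) (hM : 1 ≤ M) {N U R J : ℕ}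
    (hU : 0 < U) (hUQ : U * U < Q) (hUN : U * U ≤ N) (hJ : R < 2 ^ J) (hRN : R ≤ N)
    (hNR : N ≤ R * R) {E : ℝ} (hE0 : 0 ≤ E)
    (hE : (N : ℝ) ^ 2 * (1 / Q + 2 / U) + N * R * M ≤ E ^ 2) :
    ‖∑ n ∈ Ioc 0 N, (vonMangoldt n : ℂ) * z ^ n‖ ≤
      (3 * (U * U * M) + 2 * (J * E)) * Real.log N := by
  set L := Real.log N with hL
  have hL0 : 0 ≤ L := Real.log_natCast_nonneg N
  have hM0 : 0 ≤ M := by linarith
  have hQ : 0 < Q := by omega
  have hUU : U ≤ U * U := Nat.le_mul_self U
  have hUR : (1 : ℝ) ≤ U := by exact_mod_cast hU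
  let S : ArithmeticFunction ℝ → ℂ := fun f => ∑ n ∈ Ioc 0 N, (f n : ℂ) * z ^ n
  have Sadd : ∀ f g, S (f + g) = S f + S g := by
    intro f g
    simp only [S, ArithmeticFunction.add_apply, Complex.ofReal_add, add_mul, sum_add_distrib]
  have hid := congrArg S (vaughan U R)
  simp only [Sadd] at hid
  have b1 : ‖S (lo vonMangoldt U)‖ ≤ U * U * M * L := by
    refine (norm_sum_le _ _).trans ?_
    calc _ ≤ ∑ n ∈ Ioc 0 N, (if n ∈ Ioc 0 U then L else 0) := by
          refine sum_le_sum fun n hn => ?_
          rw [norm_mul, norm_pow, h.norm_one, one_pow, mul_one, Complex.norm_real, lo_apply]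
          have := mem_Ioc.mp hn
          split_ifs with h1 h2 h2
          · rw [Real.norm_eq_abs, abs_of_nonneg vonMangoldt_nonneg]
            exact vonMangoldt_le_log.trans (log_mono this.2)
          · exact absurd (mem_Ioc.mpr ⟨this.1, h1⟩) h2
          · simpa using hL0
          · simp
      _ ≤ U * L := by
          rw [← sum_filter, sum_const, nsmul_eq_mul]
          refine mul_le_mul_of_nonneg_right ?_ hL0
          have : (filter (fun d => d ∈ Ioc 0 U) (Ioc 0 N)).card ≤ (Ioc 0 U).card :=
            card_le_card fun d hd => (mem_filter.mp hd).2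
          rw [Nat.card_Ioc, Nat.sub_zero] at this
          exact_mod_cast this
      _ ≤ _ := by
          refine mul_le_mul_of_nonneg_right ?_ hL0
          nlinarith [mul_le_mul hUR hM zero_le_one (by linarith)]
  have b2 : ‖S (lo mob U * log)‖ ≤ U * U * M * L := by
    simp only [S]
    rw [sum_mul_twist]
    refine (typeI h hM0 N U (by omega) zero_le_one (f := lo mob U) (fun d hd => ?_)
      (fun d hd => ?_) log_mono (by simp)).trans ?_
    · rw [lo_apply, if_pos hd]
      exact abs_mob_le d
    · rw [lo_apply, if_neg (by omega)]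
    · have : 0 ≤ U * (M * L) := by positivity
      nlinarith
  have b3 : ‖S (lo mob U * lo vonMangoldt U * zet)‖ ≤ U * U * M * L := by
    simp only [S]
    rw [sum_mul_twist]
    have e : ∀ d, ∑ k ∈ Ioc 0 (N / d), (zet k : ℂ) * (z ^ d) ^ k =
        ∑ k ∈ Ioc 0 (N / d), (((fun _ => 1 : ℕ → ℝ) k : ℝ) : ℂ) * (z ^ d) ^ k := by
      intro d
      refine sum_congr rfl fun k hk => ?_
      unfold zet
      rw [natCoe_apply, zeta_apply_ne (mem_Ioc.mp hk).1.ne', Nat.cast_one]
    simp only [e]
    refine (typeI h hM0 N (U * U) hUQ hL0 (f := (lo mob U * lo vonMangoldt U : ArithmeticFunction ℝ))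
      (fun d hd => (gamma_bound U d).trans (log_mono (hd.trans hUN)))
      (fun d hd => gamma_zero hd) monotone_const zero_le_one).trans (le_of_eq ?_)
    push_cast
    ring
  have b4 : ‖S (lo (hi mob U) R * (hi vonMangoldt U * zet))‖ ≤ J * E * L := by
    simp only [S]
    rw [sum_mul_twist, ← sum_subset (Ioc_subset_Ioc (Nat.zero_le U) hRN)]
    · refine (typeII h hM0 hQ N U R J hU hJ (A := 1) (B := L) (fun d _ => ?_) hL0
        (fun k hk => (beta_bound U k).trans (log_mono hk)) zero_le_one hE0 hE).trans (le_of_eq ?_)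
      · rw [lo_apply, hi_apply]
        split_ifs
        · exact abs_mob_le d
        all_goals simp
      · ring
    · intro d _ hd
      rw [lo_apply, hi_apply]
      rw [mem_Ioc] at hd
      split_ifs
      · omega
      all_goals simp
  have b5 : ‖S ((hi vonMangoldt U * zet) * hi (hi mob U) R)‖ ≤ J * E * L := by
    simp only [S]
    rw [sum_mul_twist, ← sum_subset (Ioc_subset_Ioc (Nat.zero_le U) hRN)]
    · refine (typeII h hM0 hQ N U R J hU hJ (A := L) (B := 1)
        (fun k hk => (beta_bound U k).trans (log_mono (hk.trans hRN))) zero_le_one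
        (fun d _ => ?_) hL0 hE0 hE).trans (le_of_eq ?_)
      · rw [hi_apply, hi_apply]
        split_ifs
        · exact abs_mob_le d
        all_goals simp
      · ring
    · intro k _ hk
      rw [mem_Ioc] at hk
      by_cases hkU : k ≤ U
      · rw [beta_zero hkU]
        simp
      · rw [sum_eq_zero, mul_zero]
        intro d hd
        have hk0 : 0 < k := by omega
        have h1 := (Nat.le_div_iff_mul_le hk0).mp (mem_Ioc.mp hd).2
        rw [hi_apply, if_neg, Complex.ofReal_zero, zero_mul]
        intro hRd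
        have : R * R < d * k := Nat.mul_lt_mul'' hRd (by omega)
        omega
  have hfin : S vonMangoldt = S (lo vonMangoldt U) + S (lo mob U * log) +
      (S (lo (hi mob U) R * (hi vonMangoldt U * zet)) +
        S ((hi vonMangoldt U * zet) * hi (hi mob U) R)) - S (lo mob U * lo vonMangoldt U * zet) := by
    rw [← hid]
    ring
  show ‖S vonMangoldt‖ ≤ _
  rw [hfin]
  refine (norm_sub_le _ _).trans ?_
  have t1 := norm_add₃_le (a := S (lo vonMangoldt U)) (b := S (lo mob U * log))
    (c := S (lo (hi mob U) R * (hi vonMangoldt U * zet)) +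
        S ((hi vonMangoldt U * zet) * hi (hi mob U) R))
  have t2 := norm_add_le (S (lo (hi mob U) R * (hi vonMangoldt U * zet)))
    (S ((hi vonMangoldt U * zet) * hi (hi mob U) R))
  linarith

end Pool.Agent.MP_e3ece1_pr
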