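import Mathlib

namespace Pool.Agent.MP_e3ece1_pr

open Finset

/-- `z` lies on the unit circle, distinct powers are `2 / M` apart, equal powers have exponents
at least `Q` apart -/
structure Good (z : ℂ) (M : ℝ) (Q : ℕ) : Prop where
  norm_one : ‖z‖ = 1
  far : ∀ d : ℕ, z ^ d = 1 ∨ 2 ≤ M * ‖z ^ d - 1‖
  sep : ∀ d : ℕ, 0 < d → d < Q → z ^ d ≠ 1

lemma Good.ne_zero {z : ℂ} {M : ℝ} {Q : ℕ} (h : Good z M Q) : z ≠ 0 := by
  intro h0
  have := h.norm_one
  rw [h0] at this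
  simp at this

lemma Good.far' {z : ℂ} {M : ℝ} {Q : ℕ} (h : Good z M Q) (d e : ℕ) :
    z ^ d = z ^ e ∨ 2 ≤ M * ‖z ^ d - z ^ e‖ := by
  wlog hde : e ≤ d generalizing d e
  · rcases this e d (by omega) with h1 | h1
    · exact Or.inl h1.symm
    · right; rwa [norm_sub_rev]
  obtain ⟨c, rfl⟩ := Nat.exists_eq_add_of_le hde
  rcases h.far c with h1 | h1
  · left; rw [pow_add, h1, mul_one]
  · right
    rw [pow_add, ← mul_sub_one, norm_mul, norm_pow, h.norm_one, one_pow, one_mul]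
    exact h1

lemma Good.sep' {z : ℂ} {M : ℝ} {Q : ℕ} (h : Good z M Q) {d e : ℕ} (hde : d < e)
    (he : z ^ d = z ^ e) : d + Q ≤ e := by
  obtain ⟨c, rfl⟩ := Nat.exists_eq_add_of_le hde.le
  by_contra hc
  refine h.sep c (by omega) (by omega) ?_
  rw [pow_add] at he
  exact (mul_eq_left₀ (pow_ne_zero _ h.ne_zero)).mp he.symm

lemma abel_bound {z : ℂ} (hz : ‖z‖ = 1) {c : ℕ → ℝ} (hc : Monotone c) (h0 : 0 ≤ c 0) (Y : ℕ) :
    ‖z - 1‖ * ‖∑ m ∈ Ioc 0 Y, (c m : ℂ) * z ^ m‖ ≤ 2 * c Y := by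
  have key : ∀ Y : ℕ,
      ‖(z - 1) * ∑ m ∈ Ioc 0 Y, (c m : ℂ) * z ^ m - c Y * z ^ (Y + 1)‖ ≤ c Y := by
    intro Y
    induction Y with
    | zero => simp [hz, abs_of_nonneg h0]
    | succ Y ih =>
      rw [Finset.sum_Ioc_succ_top (Nat.zero_le Y)]
      have e : (z - 1) * (∑ m ∈ Ioc 0 Y, (c m : ℂ) * z ^ m + c (Y + 1) * z ^ (Y + 1)) -
          c (Y + 1) * z ^ (Y + 1 + 1) =
          ((z - 1) * ∑ m ∈ Ioc 0 Y, (c m : ℂ) * z ^ m - c Y * z ^ (Y + 1)) -
            ((c (Y + 1) - c Y : ℝ) : ℂ) * z ^ (Y + 1) := by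
        push_cast
        ring
      rw [e]
      refine (norm_sub_le _ _).trans ?_
      rw [norm_mul, norm_pow, hz, one_pow, mul_one, Complex.norm_real, Real.norm_eq_abs,
        abs_of_nonneg (sub_nonneg.mpr (hc (Nat.le_succ Y)))]
      linarith
  have hY : 0 ≤ c Y := h0.trans (hc (Nat.zero_le Y))
  rw [← norm_mul]
  have := norm_add_le ((z - 1) * ∑ m ∈ Ioc 0 Y, (c m : ℂ) * z ^ m - c Y * z ^ (Y + 1))
    (c Y * z ^ (Y + 1))
  rw [sub_add_cancel, norm_mul (c Y : ℂ), norm_pow, hz, one_pow, mul_one, Complex.norm_real,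
    Real.norm_eq_abs, abs_of_nonneg hY] at this
  linarith [key Y]

lemma abel_bound' {z : ℂ} (hz : ‖z‖ = 1) {M : ℝ} (hM : 2 ≤ M * ‖z - 1‖) {c : ℕ → ℝ}
    (hc : Monotone c) (h0 : 0 ≤ c 0) (Y : ℕ) :
    ‖∑ m ∈ Ioc 0 Y, (c m : ℂ) * z ^ m‖ ≤ M * c Y := by
  have h1 := abel_bound hz hc h0 Y
  have hY : 0 ≤ c Y := h0.trans (hc (Nat.zero_le Y))
  have h2 : 0 < ‖z - 1‖ := by
    rcases (norm_nonneg (z - 1)).eq_or_lt with h | h
    · rw [← h] at hM; linarith
    · exact h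
  refine le_of_mul_le_mul_left (h1.trans ?_) h2
  nlinarith

lemma sum_mul_twist (f g : ArithmeticFunction ℝ) (z : ℂ) (N : ℕ) :
    ∑ n ∈ Ioc 0 N, ((f * g) n : ℂ) * z ^ n =
      ∑ d ∈ Ioc 0 N, (f d : ℂ) * ∑ k ∈ Ioc 0 (N / d), (g k : ℂ) * (z ^ d) ^ k := by
  simp only [ArithmeticFunction.mul_apply]
  push_cast
  simp only [sum_mul, mul_sum]
  rw [sum_sigma', sum_sigma']
  refine sum_nbij' (fun x => ⟨x.2.1, x.2.2⟩) (fun x => ⟨x.1 * x.2, (x.1, x.2)⟩) ?_ ?_ ?_ ?_ ?_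
  · rintro ⟨n, d, k⟩ h
    simp only [mem_sigma, mem_Ioc, Nat.mem_divisorsAntidiagonal] at h ⊢
    obtain ⟨⟨h1, h2⟩, rfl, h4⟩ := h
    have hd : 0 < d := Nat.pos_of_ne_zero (left_ne_zero_of_mul h4)
    have hk : 0 < k := Nat.pos_of_ne_zero (right_ne_zero_of_mul h4)
    refine ⟨⟨hd, le_trans (Nat.le_mul_of_pos_right d hk) h2⟩, hk, ?_⟩
    rw [Nat.le_div_iff_mul_le hd, mul_comm]
    exact h2
  · rintro ⟨d, k⟩ h
    simp only [mem_sigma, mem_Ioc, Nat.mem_divisorsAntidiagonal] at h ⊢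
    obtain ⟨⟨h1, h2⟩, h3, h4⟩ := h
    rw [Nat.le_div_iff_mul_le h1, mul_comm] at h4
    exact ⟨⟨Nat.mul_pos h1 h3, h4⟩, trivial, (Nat.mul_pos h1 h3).ne'⟩
  · rintro ⟨n, d, k⟩ h
    simp only [mem_sigma, mem_Ioc, Nat.mem_divisorsAntidiagonal] at h
    obtain ⟨_, rfl, _⟩ := h
    rfl
  · rintro ⟨d, k⟩ _
    rfl
  · rintro ⟨n, d, k⟩ h
    simp only [mem_sigma, mem_Ioc, Nat.mem_divisorsAntidiagonal] at h
    obtain ⟨_, rfl, _⟩ := h
    simp only [pow_mul]
    ring

lemma typeI {z : ℂ} {M : ℝ} {Q : ℕ} (h : Good z M Q) (hM : 0 ≤ M) (N Y : ℕ) (hY : Y < Q)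
    {f : ℕ → ℝ} {A : ℝ} (hA : 0 ≤ A) (hf : ∀ d, d ≤ Y → |f d| ≤ A) (hf0 : ∀ d, Y < d → f d = 0)
    {c : ℕ → ℝ} (hc : Monotone c) (h0 : 0 ≤ c 0) :
    ‖∑ d ∈ Ioc 0 N, (f d : ℂ) * ∑ k ∈ Ioc 0 (N / d), (c k : ℂ) * (z ^ d) ^ k‖ ≤
      Y * (A * (M * c N)) := by
  have hN : 0 ≤ c N := h0.trans (hc (Nat.zero_le N))
  refine (norm_sum_le _ _).trans ?_
  calc _ ≤ ∑ d ∈ Ioc 0 N, (if d ∈ Ioc 0 Y then A * (M * c N) else 0) := by
        refine sum_le_sum fun d hd => ?_
        have hd0 := (mem_Ioc.mp hd).1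
        split_ifs with hdY
        · rw [norm_mul, Complex.norm_real, Real.norm_eq_abs]
          have hdY' := (mem_Ioc.mp hdY).2
          refine mul_le_mul (hf d hdY') ?_ (norm_nonneg _) hA
          have hfar := (h.far d).resolve_left (h.sep d hd0 (by omega))
          refine (abel_bound' (by rw [norm_pow, h.norm_one, one_pow]) hfar hc h0 _).trans ?_
          exact mul_le_mul_of_nonneg_left (hc (Nat.div_le_self _ _)) hM
        · rw [hf0 d (by rw [mem_Ioc] at hdY; omega)]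
          simp
    _ ≤ _ := by
        rw [← sum_filter, sum_const, nsmul_eq_mul]
        refine mul_le_mul_of_nonneg_right ?_ (by positivity)
        have : (filter (fun d => d ∈ Ioc 0 Y) (Ioc 0 N)).card ≤ (Ioc 0 Y).card :=
          card_le_card fun d hd => (mem_filter.mp hd).2
        rw [Nat.card_Ioc, Nat.sub_zero] at this
        exact_mod_cast this

lemma count_equal {z : ℂ} {M : ℝ} {Q : ℕ} (h : Good z M Q) (hQ : 0 < Q) (D : ℕ) (w : ℂ)
    {I : Finset ℕ} (hI : I ⊆ Ico D (2 * D)) :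
    ((I.filter fun e => w = z ^ e).card : ℝ) ≤ D / Q + 1 := by
  have h1 : (I.filter fun e => w = z ^ e).card ≤ (range (D / Q + 1)).card := by
    refine card_le_card_of_injOn (fun e => (e - D) / Q) ?_ ?_
    · intro e he
      have := mem_Ico.mp (hI (mem_filter.mp he).1)
      simp only [coe_range, Set.mem_Iio]
      exact Nat.lt_succ_of_le (Nat.div_le_div_right (by omega))
    · have key : ∀ e e', e ∈ I.filter (fun e => w = z ^ e) → e' ∈ I.filter (fun e => w = z ^ e) →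
          e < e' → (e - D) / Q < (e' - D) / Q := by
        intro e e' he he' hlt
        have h1 := mem_Ico.mp (hI (mem_filter.mp he).1)
        have h2 := h.sep' hlt ((mem_filter.mp he).2.symm.trans (mem_filter.mp he').2)
        calc (e - D) / Q < (e - D + Q) / Q := by rw [Nat.add_div_right _ hQ]; omega
          _ ≤ _ := Nat.div_le_div_right (by omega)
      intro e he e' he' hee
      rcases lt_trichotomy e e' with hlt | heq | hgt
      · exact absurd hee (key e e' he he' hlt).ne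
      · exact heq
      · exact absurd hee (key e' e he' he hgt).ne'
  rw [card_range] at h1
  have h2 : ((D / Q : ℕ) : ℝ) ≤ D / Q := Nat.cast_div_le
  have h3 : ((I.filter fun e => w = z ^ e).card : ℝ) ≤ (D / Q : ℕ) + 1 := by exact_mod_cast h1
  linarith

lemma block_bound {z : ℂ} {M : ℝ} {Q : ℕ} (h : Good z M Q) (hM : 0 ≤ M) (hQ : 0 < Q) (N D : ℕ)
    (hD : 0 < D) {I : Finset ℕ} (hI : I ⊆ Ico D (2 * D)) {a b : ℕ → ℝ} {A B : ℝ}
    (ha : ∀ d ∈ I, |a d| ≤ A) (hb : ∀ k, k ≤ N → |b k| ≤ B) (hA : 0 ≤ A) :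
    ‖∑ d ∈ I, (a d : ℂ) * ∑ k ∈ Ioc 0 (N / d), (b k : ℂ) * (z ^ d) ^ k‖ ^ 2 ≤
      (A * B) ^ 2 * ((N : ℝ) ^ 2 * (1 / Q + 1 / D) + N * D * M) := by
  classical
  set K := N / D with hK
  have hKd : ∀ d ∈ I, N / d ≤ K := fun d hd =>
    Nat.div_le_div_left (mem_Ico.mp (hI hd)).1 hD
  set T : ℕ → ℂ := fun k => ∑ d ∈ I, if k ≤ N / d then (a d : ℂ) * (z ^ d) ^ k else 0 with hT
  have e1 : ∑ d ∈ I, (a d : ℂ) * ∑ k ∈ Ioc 0 (N / d), (b k : ℂ) * (z ^ d) ^ k =
      ∑ k ∈ Ioc 0 K, (b k : ℂ) * T k := by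
    simp only [hT, mul_sum]
    rw [sum_comm]
    refine sum_congr rfl fun d hd => ?_
    have : Ioc 0 (N / d) = (Ioc 0 K).filter fun k => k ≤ N / d := by
      ext k
      have := hKd d hd
      simp only [mem_Ioc, mem_filter]
      omega
    rw [this, sum_filter]
    refine sum_congr rfl fun k _ => ?_
    split_ifs
    · ring
    · simp
  have hKN : K ≤ N := Nat.div_le_self _ _
  have e2 : ‖∑ k ∈ Ioc 0 K, (b k : ℂ) * T k‖ ≤ B * ∑ k ∈ Ioc 0 K, ‖T k‖ := by
    refine (norm_sum_le _ _).trans ?_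
    rw [mul_sum]
    refine sum_le_sum fun k hk => ?_
    rw [norm_mul, Complex.norm_real, Real.norm_eq_abs]
    exact mul_le_mul_of_nonneg_right (hb k ((mem_Ioc.mp hk).2.trans hKN)) (norm_nonneg _)
  have e3 : (∑ k ∈ Ioc 0 K, ‖T k‖) ^ 2 ≤ K * ∑ k ∈ Ioc 0 K, ‖T k‖ ^ 2 := by
    have := sq_sum_le_card_mul_sum_sq (s := Ioc 0 K) (f := fun k => ‖T k‖)
    rwa [Nat.card_Ioc, Nat.sub_zero] at this
  have e4 : ((∑ k ∈ Ioc 0 K, ‖T k‖ ^ 2 : ℝ) : ℂ) =
      ∑ d ∈ I, ∑ e ∈ I, ((a d * a e : ℝ) : ℂ) *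
        ∑ k ∈ Ioc 0 (min (N / d) (N / e)), ((1 : ℝ) : ℂ) * (z ^ d * (starRingEnd ℂ) (z ^ e)) ^ k := by
    push_cast
    simp only [← Complex.mul_conj', hT, map_sum, sum_mul_sum]
    rw [sum_comm]
    refine sum_congr rfl fun d hd => ?_
    rw [sum_comm]
    refine sum_congr rfl fun e he => ?_
    have : Ioc 0 (min (N / d) (N / e)) = (Ioc 0 K).filter fun k => k ≤ N / d ∧ k ≤ N / e := by
      ext k
      have := hKd d hd
      simp only [mem_Ioc, mem_filter, le_min_iff]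
      omega
    rw [this, sum_filter, mul_sum]
    refine sum_congr rfl fun k _ => ?_
    by_cases h1 : k ≤ N / d <;> by_cases h2 : k ≤ N / e <;> simp [h1, h2, mul_pow]
    ring
  have hcardI : (I.card : ℝ) ≤ D := by
    have := card_le_card hI
    rw [Nat.card_Ico] at this
    exact_mod_cast (by omega : I.card ≤ D)
  have e5 : ∑ k ∈ Ioc 0 K, ‖T k‖ ^ 2 ≤ A ^ 2 * (D * ((D / Q + 1) * K + D * M)) := by
    have : ∑ k ∈ Ioc 0 K, ‖T k‖ ^ 2 = ‖((∑ k ∈ Ioc 0 K, ‖T k‖ ^ 2 : ℝ) : ℂ)‖ := by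
      rw [Complex.norm_real, Real.norm_eq_abs, abs_of_nonneg (sum_nonneg fun _ _ => sq_nonneg _)]
    rw [this, e4]
    refine (norm_sum_le _ _).trans ?_
    calc _ ≤ ∑ d ∈ I, A ^ 2 * ((D / Q + 1) * K + D * M) := by
          refine sum_le_sum fun d hd => (norm_sum_le _ _).trans ?_
          calc _ ≤ ∑ e ∈ I, A ^ 2 * ((if z ^ d = z ^ e then (K : ℝ) else 0) + M) := by
                refine sum_le_sum fun e he => ?_
                rw [norm_mul, Complex.norm_real, Real.norm_eq_abs, abs_mul, sq]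
                refine mul_le_mul (mul_le_mul (ha d hd) (ha e he) (abs_nonneg _) hA) ?_
                  (norm_nonneg _) (by positivity)
                have hn : ‖z ^ d * (starRingEnd ℂ) (z ^ e)‖ = 1 := by
                  rw [norm_mul, Complex.norm_conj, norm_pow, norm_pow, h.norm_one]
                  simp
                split_ifs with hde
                · refine (norm_sum_le _ _).trans ?_
                  simp only [Complex.ofReal_one, one_mul, norm_pow, hn, one_pow, sum_const,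
                    Nat.card_Ioc, Nat.sub_zero, nsmul_eq_mul, mul_one]
                  have : min (N / d) (N / e) ≤ K := (min_le_left _ _).trans (hKd d hd)
                  have : ((min (N / d) (N / e) : ℕ) : ℝ) ≤ K := by exact_mod_cast this
                  linarith
                · have hfar := (h.far' d e).resolve_left hde
                  have : ‖z ^ d * (starRingEnd ℂ) (z ^ e) - 1‖ = ‖z ^ d - z ^ e‖ := by
                    have h1 : ‖z ^ e‖ = 1 := by rw [norm_pow, h.norm_one, one_pow]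
                    have h2 : z ^ e * (starRingEnd ℂ) (z ^ e) = 1 := by
                      rw [Complex.mul_conj', h1]; simp
                    rw [← h2, ← sub_mul, norm_mul, Complex.norm_conj, h1, mul_one]
                  rw [← this] at hfar
                  have := abel_bound' hn hfar (c := fun _ => 1) monotone_const zero_le_one
                    (min (N / d) (N / e))
                  simpa using this
            _ ≤ _ := by
                rw [← mul_sum, sum_add_distrib, ← sum_filter, sum_const, sum_const, nsmul_eq_mul,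
                  nsmul_eq_mul]
                refine mul_le_mul_of_nonneg_left (add_le_add ?_ ?_) (sq_nonneg _)
                · exact mul_le_mul_of_nonneg_right (count_equal h hQ D _ hI) (Nat.cast_nonneg _)
                · exact mul_le_mul_of_nonneg_right hcardI hM
      _ ≤ _ := by
          rw [sum_const, nsmul_eq_mul, mul_left_comm]
          exact mul_le_mul_of_nonneg_left (mul_le_mul_of_nonneg_right hcardI (by positivity))
            (sq_nonneg _)
  rw [e1]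
  have hDR : (0 : ℝ) < D := by exact_mod_cast hD
  have hQR : (0 : ℝ) < Q := by exact_mod_cast hQ
  have hKD : (K : ℝ) * D ≤ N := by exact_mod_cast Nat.div_mul_le_self N D
  have hK0 : (0 : ℝ) ≤ K := Nat.cast_nonneg _
  calc _ ≤ (B * ∑ k ∈ Ioc 0 K, ‖T k‖) ^ 2 := pow_le_pow_left₀ (norm_nonneg _) e2 2
    _ = B ^ 2 * (∑ k ∈ Ioc 0 K, ‖T k‖) ^ 2 := by ring
    _ ≤ B ^ 2 * (K * (A ^ 2 * (D * ((D / Q + 1) * K + D * M)))) := by
        refine mul_le_mul_of_nonneg_left (e3.trans ?_) (sq_nonneg _)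
        exact mul_le_mul_of_nonneg_left e5 hK0
    _ = (A * B) ^ 2 * ((K * D) ^ 2 * (1 / Q + 1 / D) + (K * D) * D * M) := by
        field_simp
    _ ≤ _ := by gcongr

lemma typeII {z : ℂ} {M : ℝ} {Q : ℕ} (h : Good z M Q) (hM : 0 ≤ M) (hQ : 0 < Q) (N U R J : ℕ)
    (hU : 0 < U) (hJ : R < 2 ^ J) {a b : ℕ → ℝ} {A B E : ℝ}
    (ha : ∀ d, d ≤ R → |a d| ≤ A) (hB : 0 ≤ B) (hb : ∀ k, k ≤ N → |b k| ≤ B) (hA : 0 ≤ A)
    (hE0 : 0 ≤ E) (hE : (N : ℝ) ^ 2 * (1 / Q + 2 / U) + N * R * M ≤ E ^ 2) :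
    ‖∑ d ∈ Ioc U R, (a d : ℂ) * ∑ k ∈ Ioc 0 (N / d), (b k : ℂ) * (z ^ d) ^ k‖ ≤
      J * (A * B * E) := by
  rw [← sum_fiberwise_of_maps_to (t := range J) (g := fun d => Nat.log 2 d) (fun d hd => by
    have := mem_Ioc.mp hd
    rw [mem_range]
    exact Nat.log_lt_of_lt_pow (by omega) (by omega))]
  refine (norm_sum_le _ _).trans ?_
  calc _ ≤ ∑ _j ∈ range J, A * B * E := by
        refine sum_le_sum fun j _ => ?_
        rcases ((Ioc U R).filter fun d => Nat.log 2 d = j).eq_empty_or_nonempty with he | ⟨d₀, hd₀⟩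
        · rw [he, sum_empty, norm_zero]
          positivity
        have hsub : ((Ioc U R).filter fun d => Nat.log 2 d = j) ⊆ Ico (2 ^ j) (2 * 2 ^ j) := by
          intro d hd
          obtain ⟨h1, rfl⟩ := mem_filter.mp hd
          have := mem_Ioc.mp h1
          rw [mem_Ico, ← pow_succ']
          exact ⟨Nat.pow_log_le_self 2 (by omega), Nat.lt_pow_succ_log_self (by norm_num) d⟩
        have h1 := mem_Ico.mp (hsub hd₀)
        have h2 := mem_Ioc.mp (mem_filter.mp hd₀).1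
        have := block_bound h hM hQ N (2 ^ j) (by positivity) hsub (a := a) (b := b) (A := A)
          (fun d hd => ha d (mem_Ioc.mp (mem_filter.mp hd).1).2) hb hA
        refine (sq_le_sq₀ (norm_nonneg _) (by positivity)).mp (this.trans ?_)
        rw [mul_pow (A * B)]
        refine mul_le_mul_of_nonneg_left (le_trans ?_ hE) (sq_nonneg _)
        have h3 : (U : ℝ) ≤ 2 * ((2 ^ j : ℕ) : ℝ) := by exact_mod_cast (by omega : U ≤ 2 * 2 ^ j)
        have h4 : ((2 ^ j : ℕ) : ℝ) ≤ R := by exact_mod_cast (by omega : 2 ^ j ≤ R)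
        have hUR : (0 : ℝ) < U := by exact_mod_cast hU
        have h5 : 1 / ((2 ^ j : ℕ) : ℝ) ≤ 2 / U := by
          rw [div_le_div_iff₀ (by positivity) hUR]
          linarith
        gcongr
    _ = _ := by rw [sum_const, card_range, nsmul_eq_mul]

end Pool.Agent.MP_e3ece1_pr
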