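import Mathlib

namespace Pool.Agent.MP_e3ece1_pr

/-- `μ` is a finitely supported probability measure on the integers whose set of differences of
support points has greatest common divisor `1`. -/
def Admissible (μ : ℤ →₀ ℝ) : Prop :=
  (∀ x, 0 ≤ μ x) ∧ (μ.sum fun _ p => p) = 1 ∧
    (μ.support ×ˢ μ.support).gcd (fun z => z.1 - z.2) = 1

/-- The law of `X n`, where `X 0 = 0` and `X (n+1) = a * X n + b` with `b` of law `μ`,
independent of `X n`. -/
noncomputable def law (μ : ℤ →₀ ℝ) (a : ℤ) : ℕ → (ℤ →₀ ℝ)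
  | 0 => Finsupp.single 0 1
  | n + 1 => (law μ a n).sum fun x p => μ.sum fun b w => Finsupp.single (a * x + b) (p * w)

/-- Shannon entropy (natural logarithm). -/
noncomputable def entropy (ν : ℤ →₀ ℝ) : ℝ :=
  ν.sum fun _ p => p * Real.log p⁻¹

/-- `H` is the entropy rate of the base `a` walk. -/
def IsEntropyRate (μ : ℤ →₀ ℝ) (a : ℤ) (H : ℝ) : Prop :=
  Filter.Tendsto (fun n : ℕ => entropy (law μ a n) / n) Filter.atTop (nhds H)

/-- Total variation distance between the law of `X n` modulo `q` and the uniform measure. -/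
noncomputable def tvDist (μ : ℤ →₀ ℝ) (a : ℤ) (q n : ℕ) : ℝ :=
  1 / 2 * ∑ y ∈ Finset.range q,
    |(law μ a n).mapDomain (fun x : ℤ => (x : ZMod q)) (y : ZMod q) - 1 / (q : ℝ)|

end Pool.Agent.MP_e3ece1_pr
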